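import Pool.Agent.H49.KT.UTargets

/-!
# First pass of an interpreted step: the number of the stack of the present block
-/

namespace Pool.Agent.H65.KT.P1

open Turing Function
open Pool.Agent.H49.KT Pool.Agent.H49.KT.Uni
open Tok

/-- the four stacks used by the pass -/
def zz (z : Nw → List Tok) (Q Q' I P : List Tok) : Nw → List Tok
  | .q => Q
  | .q' => Q'
  | .i => I
  | .prg' => P
  | k => z k

variable (z : Nw → List Tok) (Q Q' I P l : List Tok)

theorem zq : update (zz z Q Q' I P) .q l = zz z l Q' I P := by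
  funext k; cases k <;> simp [update, zz]

theorem zq' : update (zz z Q Q' I P) .q' l = zz z Q l I P := by
  funext k; cases k <;> simp [update, zz]

theorem zi : update (zz z Q Q' I P) .i l = zz z Q Q' l P := by
  funext k; cases k <;> simp [update, zz]

theorem zp : update (zz z Q Q' I P) .prg' l = zz z Q Q' I l := by
  funext k; cases k <;> simp [update, zz]

theorem zz_self : zz z (z .q) (z .q') (z .i) (z .prg') = z := by
  funext k; cases k <;> rfl

variable {z Q Q' I P l} {u : IO → List Bool}

/-- a token which is only copied -/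
theorem b_other (v : Me) (t : Tok) (ht : t ≠ tb) (hm : v.mode ≠ 1) :
    Spec body1 (mk2 (v.sr t) u (zz z Q Q' I P)) (mk2 (v.sr t) u (zz z Q Q' I (t :: P))) 6 := by
  have h1 : Spec _ (mk2 (v.sr t) u (zz z Q Q' I P)) _ _ :=
    Spec.ite_f (c₁ := (.seq (popg .q) (.ite (fun v => v.g) (pusht .q' t1)
      (.ite (fun v => v.mode == 0) (smode 1) (smode 2))))) (p := fun v => v.r == tb)
      (by simp [ht])
      (Spec.ite_f (c₁ := (.ite (fun v => v.r == t1) (pusht .i t1) (smode 2)))
        (p := fun v => v.mode == 1) (by simp [hm]) (sp_skip (v.sr t) u (zz z Q Q' I P)))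
  have h2 := Spec.seq h1 (sp_pushr (v.sr t) u (zz z Q Q' I P) .prg')
  rw [zp] at h2
  exact h2.mono (by norm_num)

/-- the beginning of a block, `q` not empty -/
theorem b_tb (v : Me) (a : Tok) :
    Spec body1 (mk2 (v.sr tb) u (zz z (a :: Q) Q' I P))
      (mk2 ((v.sr tb).sg true) u (zz z Q (t1 :: Q') I (tb :: P))) 6 := by
  have h0 := sp_popg (v.sr tb) u (zz z (a :: Q) Q' I P) .q
  rw [zq] at h0
  have h1 := Spec.ite_t (c₂ := (.ite (fun v => v.mode == 1)
      (.ite (fun v => v.r == t1) (pusht .i t1) (smode 2)) skip)) (p := fun v : Me => v.r == tb)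
      (by simp)
      (Spec.seq h0 (Spec.ite_t (c₂ := (.ite (fun v => v.mode == 0) (smode 1) (smode 2)))
        (p := fun v : Me => v.g) (by simp [zz]) (sp_pusht _ u _ .q' t1)))
  have h2 := Spec.seq h1 (sp_pushr _ u _ .prg')
  rw [zq', zp] at h2
  exact h2.mono (by norm_num)

/-- the beginning of a block, `q` empty, mode `0` -/
theorem b_tb0 (v : Me) (hm : v.mode = 0) :
    Spec body1 (mk2 (v.sr tb) u (zz z [] Q' I P))
      (mk2 (((v.sr tb).sg false).sm 1) u (zz z [] Q' I (tb :: P))) 6 := by
  have h0 := sp_popg (v.sr tb) u (zz z [] Q' I P) .q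
  rw [zq] at h0
  have h1 := Spec.ite_t (c₂ := (.ite (fun v => v.mode == 1)
      (.ite (fun v => v.r == t1) (pusht .i t1) (smode 2)) skip)) (p := fun v : Me => v.r == tb)
      (by simp)
      (Spec.seq h0 (Spec.ite_f (c₁ := pusht .q' t1)
        (p := fun v : Me => v.g) (by simp [zz])
        (Spec.ite_t (c₂ := smode 2) (p := fun v : Me => v.mode == 0) (by simp [hm])
          (sp_smode _ u _ 1))))
  have h2 := Spec.seq h1 (sp_pushr _ u _ .prg')
  rw [zp] at h2
  exact h2.mono (by norm_num)

/-- the beginning of a block, `q` empty, mode not `0` -/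
theorem b_tb1 (v : Me) (hm : v.mode ≠ 0) :
    Spec body1 (mk2 (v.sr tb) u (zz z [] Q' I P))
      (mk2 (((v.sr tb).sg false).sm 2) u (zz z [] Q' I (tb :: P))) 6 := by
  have h0 := sp_popg (v.sr tb) u (zz z [] Q' I P) .q
  rw [zq] at h0
  have h1 := Spec.ite_t (c₂ := (.ite (fun v => v.mode == 1)
      (.ite (fun v => v.r == t1) (pusht .i t1) (smode 2)) skip)) (p := fun v : Me => v.r == tb)
      (by simp)
      (Spec.seq h0 (Spec.ite_f (c₁ := pusht .q' t1)
        (p := fun v : Me => v.g) (by simp [zz])
        (Spec.ite_f (c₁ := smode 1) (p := fun v : Me => v.mode == 0) (by simp [hm])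
          (sp_smode _ u _ 2))))
  have h2 := Spec.seq h1 (sp_pushr _ u _ .prg')
  rw [zp] at h2
  exact h2.mono (by norm_num)

/-- a unit in mode `1` -/
theorem b_t1 (v : Me) (hm : v.mode = 1) :
    Spec body1 (mk2 (v.sr t1) u (zz z Q Q' I P))
      (mk2 (v.sr t1) u (zz z Q Q' (t1 :: I) (t1 :: P))) 6 := by
  have h1 : Spec _ (mk2 (v.sr t1) u (zz z Q Q' I P)) _ _ :=
    Spec.ite_f (c₁ := (.seq (popg .q) (.ite (fun v => v.g) (pusht .q' t1)
      (.ite (fun v => v.mode == 0) (smode 1) (smode 2))))) (p := fun v => v.r == tb)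
      (by simp)
      (Spec.ite_t (c₂ := Uni.skip)
        (p := fun v => v.mode == 1) (by simp [hm])
        (Spec.ite_t (c₂ := smode 2) (p := fun v => v.r == t1) (by simp)
          (sp_pusht (v.sr t1) u (zz z Q Q' I P) .i t1)))
  have h2 := Spec.seq h1 (sp_pushr (v.sr t1) u _ .prg')
  rw [zi, zp] at h2
  exact h2.mono (by norm_num)

/-- the first entry in mode `1` -/
theorem b_te (v : Me) (hm : v.mode = 1) :
    Spec body1 (mk2 (v.sr te) u (zz z Q Q' I P))
      (mk2 ((v.sr te).sm 2) u (zz z Q Q' I (te :: P))) 6 := by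
  have h1 : Spec _ (mk2 (v.sr te) u (zz z Q Q' I P)) _ _ :=
    Spec.ite_f (c₁ := (.seq (popg .q) (.ite (fun v => v.g) (pusht .q' t1)
      (.ite (fun v => v.mode == 0) (smode 1) (smode 2))))) (p := fun v => v.r == tb)
      (by simp)
      (Spec.ite_t (c₂ := Uni.skip)
        (p := fun v => v.mode == 1) (by simp [hm])
        (Spec.ite_f (c₁ := pusht .i t1) (p := fun v => v.r == t1) (by simp)
          (sp_smode (v.sr te) u (zz z Q Q' I P) 2)))
  have h2 := Spec.seq h1 (sp_pushr _ u _ .prg')
  rw [zp] at h2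
  exact h2.mono (by norm_num)

theorem tb_encS (y : ℕ) : tb ∉ encS y := by
  unfold encS
  simp

theorem tb_encW (w : List ℕ) : tb ∉ encW w := by
  unfold encW
  rw [List.mem_flatMap]
  rintro ⟨y, _, hy⟩
  exact tb_encS y hy

theorem tb_encE (a : Ent) : tb ∉ encE a := by
  unfold encE
  intro h
  rw [List.mem_cons, List.mem_append, List.mem_cons] at h
  rcases h with h | h | h | h
  · exact absurd h (by decide)
  · exact tb_encW _ h
  · exact absurd h (by decide)
  · simp at h

theorem tb_ents (es : List Ent) : tb ∉ es.flatMap encE := by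
  rw [List.mem_flatMap]
  rintro ⟨y, _, hy⟩
  exact tb_encE y hy

/-- a text without `tb` in a mode different from `1` -/
theorem seg_copy : ∀ (t : List Tok), tb ∉ t → ∀ (v : Me) (P : List Tok), v.mode ≠ 1 →
    ∃ v' : Me, v'.mode = v.mode ∧ v'.ng = v.ng ∧ Seg body1 t (mk2 v u (zz z Q Q' I P))
      (mk2 v' u (zz z Q Q' I (t.reverse ++ P))) (7 * t.length) := by
  intro t
  induction t with
  | nil =>
    intro _ v P _
    exact ⟨v, rfl, rfl, Seg.nil _ _⟩
  | cons a t ih =>
    intro hn v P hm
    rw [List.mem_cons, not_or] at hn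
    obtain ⟨v', h1, h2, h3⟩ := ih hn.2 (v.sr a) (a :: P) (by simpa using hm)
    refine ⟨v', by simpa using h1, by simpa using h2, ?_⟩
    have e := Seg.cons (v := v) (b_other (u := u) (z := z) (Q := Q) (Q' := Q') (I := I) (P := P) v a
      (fun h => hn.1 h.symm) hm) h3
    have e2 : (a :: t).reverse ++ P = t.reverse ++ a :: P := by simp
    rw [e2]
    exact e.mono (by simp only [List.length_cons]; omega)

/-- the blocks before the present one -/
theorem seg_before (m : ℕ) : ∀ (A : List Blk) (v : Me) (P : List Tok) (k : ℕ), v.mode = 0 →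
    ∃ v' : Me, v'.mode = 0 ∧ v'.ng = v.ng ∧
      Seg body1 (encP A) (mk2 v u (zz z (us (A.length + m)) (us k) I P))
      (mk2 v' u (zz z (us m) (us (A.length + k)) I ((encP A).reverse ++ P)))
      (7 * (encP A).length) := by
  intro A
  induction A with
  | nil =>
    intro v P k hm
    refine ⟨v, hm, rfl, ?_⟩
    simpa [encP] using Seg.nil body1 _
  | cons a A ih =>
    intro v P k hm
    have e1 : us ((a :: A).length + m) = t1 :: us (A.length + m) := by
      simp only [us, List.length_cons]
      rw [show A.length + 1 + m = (A.length + m) + 1 by omega, List.replicate_succ]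
    have e2 : encP (a :: A) = tb :: ((us a.1 ++ a.2.flatMap encE) ++ encP A) := by
      simp [encP, encB]
    have hb := b_tb (u := u) (z := z) (Q := us (A.length + m)) (Q' := us k) (I := I) (P := P) v t1
    obtain ⟨v1, h1, h2, h3⟩ := seg_copy (u := u) (z := z) (Q := us (A.length + m))
      (Q' := t1 :: us k) (I := I) (us a.1 ++ a.2.flatMap encE) (by
        rw [List.mem_append, not_or]
        exact ⟨by simp [us], tb_ents _⟩) ((v.sr tb).sg true) (tb :: P) (by simp [hm])
    have hv1 : v1.mode = 0 := by rw [h1]; simp [hm]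
    obtain ⟨v2, h4, h5, h6⟩ := ih v1 ((us a.1 ++ a.2.flatMap encE).reverse ++ tb :: P) (k + 1) hv1
    have e3 : t1 :: us k = us (k + 1) := by simp [us, List.replicate_succ]
    rw [e3] at hb h3
    refine ⟨v2, h4, by rw [h5, h2]; simp, ?_⟩
    have e := Seg.cons (v := v) hb (h3.append h6)
    rw [e1, e2]
    have e4 : (tb :: ((us a.1 ++ a.2.flatMap encE) ++ encP A)).reverse ++ P =
        (encP A).reverse ++ ((us a.1 ++ a.2.flatMap encE).reverse ++ tb :: P) := by
      simp
    have e5 : us ((a :: A).length + k) = us (A.length + (k + 1)) := by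
      congr 1
      simp only [List.length_cons]
      omega
    rw [e4, e5]
    exact e.mono (by simp only [List.length_cons, List.length_append]; omega)

/-- units in mode `1` -/
theorem seg_units : ∀ (i : ℕ) (v : Me) (P : List Tok) (k : ℕ), v.mode = 1 →
    ∃ v' : Me, v'.mode = 1 ∧ v'.ng = v.ng ∧
      Seg body1 (us i) (mk2 v u (zz z Q Q' (us k) P))
      (mk2 v' u (zz z Q Q' (us (i + k)) ((us i).reverse ++ P))) (7 * i) := by
  intro i
  induction i with
  | zero =>
    intro v P k hm
    refine ⟨v, hm, rfl, ?_⟩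
    simpa [us] using Seg.nil body1 _
  | succ i ih =>
    intro v P k hm
    obtain ⟨v', h1, h2, h3⟩ := ih (v.sr t1) (t1 :: P) (k + 1) (by simpa using hm)
    refine ⟨v', h1, by simpa using h2, ?_⟩
    have hb := b_t1 (u := u) (z := z) (Q := Q) (Q' := Q') (I := us k) (P := P) v hm
    have e3 : t1 :: us k = us (k + 1) := by simp [us, List.replicate_succ]
    rw [e3] at hb
    have e := Seg.cons (v := v) hb h3
    have e1 : us (i + 1) = t1 :: us i := by simp [us, List.replicate_succ]
    have e2 : (us (i + 1)).reverse ++ P = (us i).reverse ++ t1 :: P := by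
      rw [e1]; simp
    have e4 : us (i + 1 + k) = us (i + (k + 1)) := by congr 1; omega
    rw [e2, e4, e1]
    exact e.mono (by omega)

/-- the present block -/
theorem seg_block (i : ℕ) (es : List Ent) (v : Me) (P : List Tok) (hm : v.mode = 0) :
    ∃ v' : Me, v'.mode ≠ 0 ∧ v'.ng = v.ng ∧
      Seg body1 (encB (i, es)) (mk2 v u (zz z [] Q' [] P))
      (mk2 v' u (zz z [] Q' (us i) ((encB (i, es)).reverse ++ P)))
      (7 * (encB (i, es)).length) := by
  have hb := b_tb0 (u := u) (z := z) (Q' := Q') (I := []) (P := P) v hm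
  obtain ⟨v1, h1, h2, h3⟩ := seg_units (u := u) (z := z) (Q := []) (Q' := Q') i
    (((v.sr tb).sg false).sm 1) (tb :: P) 0 (by simp)
  have e0 : us 0 = [] := rfl
  rw [e0, add_zero] at h3
  rcases es with _ | ⟨a, es⟩
  · refine ⟨v1, by rw [h1]; decide, by rw [h2]; simp, ?_⟩
    have e := Seg.cons (v := v) hb h3
    have e1 : encB (i, []) = tb :: us i := by simp [encB, us]
    rw [e1]
    have e2 : (tb :: us i).reverse ++ P = (us i).reverse ++ tb :: P := by simp
    rw [e2]
    exact e.mono (by simp [us]; omega)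
  · have hb2 := b_te (u := u) (z := z) (Q := []) (Q' := Q') (I := us i)
      (P := (us i).reverse ++ tb :: P) v1 h1
    set t : List Tok := (encW a.1 ++ tn :: List.replicate a.2 t1) ++ es.flatMap encE with ht
    have htb : tb ∉ t := by
      rw [ht, List.mem_append, not_or]
      refine ⟨fun h => tb_encE a ?_, tb_ents _⟩
      unfold encE
      exact List.mem_cons_of_mem _ h
    obtain ⟨v2, h4, h5, h6⟩ := seg_copy (u := u) (z := z) (Q := []) (Q' := Q') (I := us i) t htb
      ((v1.sr te).sm 2) (te :: ((us i).reverse ++ tb :: P)) (by simp)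
    refine ⟨v2, by rw [h4]; simp, by rw [h5]; simpa using h2, ?_⟩
    have e := Seg.cons (v := v) hb (h3.append (Seg.cons hb2 h6))
    have e1 : encB (i, a :: es) = tb :: (us i ++ te :: t) := by
      simp [encB, encE, us, ht]
    rw [e1]
    have e2 : (tb :: (us i ++ te :: t)).reverse ++ P =
        t.reverse ++ te :: ((us i).reverse ++ tb :: P) := by simp
    rw [e2]
    exact e.mono (by simp only [List.length_cons, List.length_append, List.length_replicate]; omega)

/-- the blocks after the present one -/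
theorem seg_after : ∀ (A : List Blk) (v : Me) (P : List Tok), v.mode ≠ 0 →
    ∃ v' : Me, v'.ng = v.ng ∧
      Seg body1 (encP A) (mk2 v u (zz z [] Q' I P))
      (mk2 v' u (zz z [] Q' I ((encP A).reverse ++ P))) (7 * (encP A).length) := by
  intro A
  induction A with
  | nil =>
    intro v P _
    refine ⟨v, rfl, ?_⟩
    simpa [encP] using Seg.nil body1 _
  | cons a A ih =>
    intro v P hm
    have hb := b_tb1 (u := u) (z := z) (Q' := Q') (I := I) (P := P) v hm
    obtain ⟨v1, h1, h2, h3⟩ := seg_copy (u := u) (z := z) (Q := [])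
      (Q' := Q') (I := I) (us a.1 ++ a.2.flatMap encE) (by
        rw [List.mem_append, not_or]
        exact ⟨by simp [us], tb_ents _⟩) (((v.sr tb).sg false).sm 2) (tb :: P) (by simp)
    obtain ⟨v2, h5, h6⟩ := ih v1 ((us a.1 ++ a.2.flatMap encE).reverse ++ tb :: P)
      (by rw [h1]; simp)
    refine ⟨v2, by rw [h5, h2]; simp, ?_⟩
    have e := Seg.cons (v := v) hb (h3.append h6)
    have e2 : encP (a :: A) = tb :: ((us a.1 ++ a.2.flatMap encE) ++ encP A) := by
      simp [encP, encB]
    rw [e2]
    have e4 : (tb :: ((us a.1 ++ a.2.flatMap encE) ++ encP A)).reverse ++ P =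
        (encP A).reverse ++ ((us a.1 ++ a.2.flatMap encE).reverse ++ tb :: P) := by
      simp
    rw [e4]
    exact e.mono (by simp only [List.length_cons, List.length_append]; omega)

theorem length_encP (B : List Blk) : B.length ≤ (encP B).length := by
  induction B with
  | nil => simp [encP]
  | cons a B ih =>
    have : (encP (a :: B)).length = (encB a).length + (encP B).length := by simp [encP]
    rw [this]
    have h : 1 ≤ (encB a).length := by simp [encB]
    simp only [List.length_cons]
    omega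

theorem split {α : Type} (B : List α) (q : ℕ) (a : α) (h : B[q]? = some a) :
    B = B.take q ++ a :: B.drop (q + 1) ∧ (B.take q).length = q := by
  obtain ⟨hq, rfl⟩ := List.getElem?_eq_some_iff.1 h
  refine ⟨?_, by rw [List.length_take]; omega⟩
  rw [← List.drop_eq_getElem_cons hq, List.take_append_drop]

theorem pf_P1 : T_P1 := by
  intro v u z B q i es hB hprg hprg' hq hq' hi
  obtain ⟨hs, hl⟩ := split B q (i, es) hB
  set A := B.take q with hA
  set C := B.drop (q + 1) with hC
  have hqB : q ≤ (encP B).length := by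
    have h1 := length_encP B
    have h2 : q < B.length := (List.getElem?_eq_some_iff.1 hB).1
    omega
  have hP : encP B = encP A ++ (encB (i, es) ++ encP C) := by
    conv_lhs => rw [hs]
    simp [encP]
  set z₀ := update z .prg [] with hz0
  have hz : z₀ = zz z₀ (us (A.length + 0)) (us 0) [] [] := by
    have h := zz_self z₀
    rw [hz0, update_of_ne (by decide), update_of_ne (by decide), update_of_ne (by decide),
      update_of_ne (by decide), hq, hq', hi, hprg'] at h
    rw [hz0, hl, add_zero]
    exact h.symm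
  obtain ⟨v1, h1, h2, h3⟩ := seg_before (u := u) (z := z₀) (I := []) 0 A (v.sm 0) [] 0 (by simp)
  obtain ⟨v2, h4, h5, h6⟩ := seg_block (u := u) (z := z₀) (Q' := us (A.length + 0)) i es v1
    ((encP A).reverse ++ []) h1
  obtain ⟨v3, h7, h8⟩ := seg_after (u := u) (z := z₀) (Q' := us (A.length + 0)) (I := us i) C v2
    ((encB (i, es)).reverse ++ ((encP A).reverse ++ [])) h4
  have h9 := h3.append (h6.append h8)
  rw [← hP, ← hz] at h9
  have h10 := sp_lp (v := v.sm 0) (z := z) hprg h9
  obtain ⟨t1', h11⟩ := sp_mv v3 u (zz z₀ [] (us (A.length + 0)) (us i)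
    ((encP C).reverse ++ ((encB (i, es)).reverse ++ ((encP A).reverse ++ []))))
    (y := .prg') (y' := .prg) (by decide)
  obtain ⟨t2, h12⟩ := sp_mv (v3.sr t1') u (update (update (zz z₀ [] (us (A.length + 0)) (us i)
    ((encP C).reverse ++ ((encB (i, es)).reverse ++ ((encP A).reverse ++ [])))) .prg' []) .prg
    (((zz z₀ [] (us (A.length + 0)) (us i)
    ((encP C).reverse ++ ((encB (i, es)).reverse ++ ((encP A).reverse ++ [])))) .prg').reverse ++
    (zz z₀ [] (us (A.length + 0)) (us i)
    ((encP C).reverse ++ ((encB (i, es)).reverse ++ ((encP A).reverse ++ [])))) .prg))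
    (y := .q') (y' := .q) (by decide)
  have h13 := Spec.seq (sp_smode v u z 0) (Spec.seq h10 (Spec.seq h11 h12))
  refine ⟨(v3.sr t1').sr t2, ?_, ?_⟩
  · show ((v3.sr t1').sr t2).ng = v.ng
    simp [h7, h5, h2]
  have hfin : ∀ z1 z2 : Nw → List Tok, z1 = z2 → ∀ T1 T2 : ℕ, T1 ≤ T2 →
      Spec pass1 (mk2 v u z) (mk2 ((v3.sr t1').sr t2) u z1) T1 →
      Spec pass1 (mk2 v u z) (mk2 ((v3.sr t1').sr t2) u z2) T2 := by
    intro z1 z2 h T1 T2 hT hs
    subst h
    exact hs.mono hT
  refine hfin _ _ ?_ _ _ ?_ h13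
  · funext k
    cases k <;> simp [update, zz, z₀, hprg, hprg', hq, hq', hl, hP]
  · have hPl : (encP B).length = (encP A).length + ((encB (i, es)).length + (encP C).length) := by
      rw [hP]; simp
    simp [update, zz, hl]
    omega

end Pool.Agent.H65.KT.P1
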