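import Pool.Agent.H49.KT.UTargets

/-!
# Second pass of an interpreted step: the symbol read, a mark
-/

namespace Pool.Agent.H65.KT.P2

open Turing Function
open Pool.Agent.H49.KT Pool.Agent.H49.KT.Uni
open Tok

/-- the three stacks used by the pass -/
def yy (z : Nw → List Tok) (I X P : List Tok) : Nw → List Tok
  | .i => I
  | .x => X
  | .cfg' => P
  | k => z k

variable (z : Nw → List Tok) (I X P l : List Tok)

theorem yi : update (yy z I X P) .i l = yy z l X P := by
  funext k; cases k <;> simp [update, yy]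

theorem yx : update (yy z I X P) .x l = yy z I l P := by
  funext k; cases k <;> simp [update, yy]

theorem yp : update (yy z I X P) .cfg' l = yy z I X l := by
  funext k; cases k <;> simp [update, yy]

theorem yy_self : yy z (z .i) (z .x) (z .cfg') = z := by
  funext k; cases k <;> rfl

variable {z I X P l} {u : IO → List Bool}

/-- the branch at the beginning of a stack -/
abbrev cs : C2 := (.seq (popg .i) (.ite (fun v => v.g) (pushr .cfg')
      (.ite (fun v => v.mode == 0) (.seq (pushr .cfg') (.seq (pusht .cfg' tk) (smode 1)))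
        (.seq (pushr .cfg') (smode 2)))))

/-- the other branch -/
abbrev co : C2 := (.ite (fun v => v.mode == 1) (.ite (fun v => v.r == t1) (pusht .x t1) (smode 2))
      (pushr .cfg'))

/-- a token which is only copied -/
theorem b_other (v : Me) (t : Tok) (ht : t ≠ ts) (hm : v.mode ≠ 1) :
    Spec body2 (mk2 (v.sr t) u (yy z I X P)) (mk2 (v.sr t) u (yy z I X (t :: P))) 7 := by
  have h0 := sp_pushr (v.sr t) u (yy z I X P) .cfg'
  rw [yp] at h0
  have h1 : Spec body2 (mk2 (v.sr t) u (yy z I X P)) _ _ :=
    Spec.ite_f (c₁ := cs) (p := fun v => v.r == ts) (by simp [ht])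
      (Spec.ite_f (c₁ := (.ite (fun v => v.r == t1) (pusht .x t1) (smode 2)))
        (p := fun v => v.mode == 1) (by simp [hm]) h0)
  exact h1.mono (by norm_num)

/-- the beginning of a stack, `i` not empty -/
theorem b_ts (v : Me) (a : Tok) :
    Spec body2 (mk2 (v.sr ts) u (yy z (a :: I) X P))
      (mk2 ((v.sr ts).sg true) u (yy z I X (ts :: P))) 7 := by
  have h0 := sp_popg (v.sr ts) u (yy z (a :: I) X P) .i
  rw [yi] at h0
  have h1 := Spec.ite_t (c₂ := co) (p := fun v : Me => v.r == ts) (by simp)
      (Spec.seq h0 (Spec.ite_t (c₂ := (.ite (fun v => v.mode == 0)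
        (.seq (pushr .cfg') (.seq (pusht .cfg' tk) (smode 1)))
        (.seq (pushr .cfg') (smode 2))))
        (p := fun v : Me => v.g) (by simp [yy]) (sp_pushr _ u _ .cfg')))
  rw [yp] at h1
  exact h1.mono (by norm_num)

/-- the beginning of the present stack -/
theorem b_ts0 (v : Me) (hm : v.mode = 0) :
    Spec body2 (mk2 (v.sr ts) u (yy z [] X P))
      (mk2 (((v.sr ts).sg false).sm 1) u (yy z [] X (tk :: ts :: P))) 7 := by
  have h0 := sp_popg (v.sr ts) u (yy z [] X P) .i
  rw [yi] at h0
  have h1 := Spec.ite_t (c₂ := co) (p := fun v : Me => v.r == ts) (by simp)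
      (Spec.seq h0 (Spec.ite_f (c₁ := pushr .cfg')
        (p := fun v : Me => v.g) (by simp [yy])
        (Spec.ite_t (c₂ := (.seq (pushr .cfg') (smode 2))) (p := fun v : Me => v.mode == 0)
          (by simp [hm])
          (Spec.seq (sp_pushr _ u _ .cfg') (Spec.seq (sp_pusht _ u _ .cfg' tk)
            (sp_smode _ u _ 1))))))
  rw [yp, yp] at h1
  exact h1.mono (by norm_num)

/-- the beginning of a stack after the present one -/
theorem b_ts1 (v : Me) (hm : v.mode ≠ 0) :
    Spec body2 (mk2 (v.sr ts) u (yy z [] X P))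
      (mk2 (((v.sr ts).sg false).sm 2) u (yy z [] X (ts :: P))) 7 := by
  have h0 := sp_popg (v.sr ts) u (yy z [] X P) .i
  rw [yi] at h0
  have h1 := Spec.ite_t (c₂ := co) (p := fun v : Me => v.r == ts) (by simp)
      (Spec.seq h0 (Spec.ite_f (c₁ := pushr .cfg')
        (p := fun v : Me => v.g) (by simp [yy])
        (Spec.ite_f (c₁ := (.seq (pushr .cfg') (.seq (pusht .cfg' tk) (smode 1))))
          (p := fun v : Me => v.mode == 0) (by simp [hm])
          (Spec.seq (sp_pushr _ u _ .cfg') (sp_smode _ u _ 2)))))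
  rw [yp] at h1
  exact h1.mono (by norm_num)

/-- a unit in mode `1` -/
theorem b_t1 (v : Me) (hm : v.mode = 1) :
    Spec body2 (mk2 (v.sr t1) u (yy z I X P))
      (mk2 (v.sr t1) u (yy z I (t1 :: X) P)) 7 := by
  have h0 := sp_pusht (v.sr t1) u (yy z I X P) .x t1
  rw [yx] at h0
  have h1 : Spec body2 (mk2 (v.sr t1) u (yy z I X P)) _ _ :=
    Spec.ite_f (c₁ := cs) (p := fun v => v.r == ts) (by simp)
      (Spec.ite_t (c₂ := pushr .cfg')
        (p := fun v => v.mode == 1) (by simp [hm])
        (Spec.ite_t (c₂ := smode 2) (p := fun v => v.r == t1) (by simp) h0))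
  exact h1.mono (by norm_num)

/-- the end of the symbol read -/
theorem b_tc (v : Me) (hm : v.mode = 1) :
    Spec body2 (mk2 (v.sr tc) u (yy z I X P))
      (mk2 ((v.sr tc).sm 2) u (yy z I X P)) 7 := by
  have h1 : Spec body2 (mk2 (v.sr tc) u (yy z I X P)) _ _ :=
    Spec.ite_f (c₁ := cs) (p := fun v => v.r == ts) (by simp)
      (Spec.ite_t (c₂ := pushr .cfg')
        (p := fun v => v.mode == 1) (by simp [hm])
        (Spec.ite_f (c₁ := pusht .x t1) (p := fun v => v.r == t1) (by simp)
          (sp_smode (v.sr tc) u (yy z I X P) 2)))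
  exact h1.mono (by norm_num)

theorem ts_encS (y : ℕ) : ts ∉ encS y := by
  unfold encS
  simp

theorem ts_encW (w : List ℕ) : ts ∉ encW w := by
  unfold encW
  rw [List.mem_flatMap]
  rintro ⟨y, _, hy⟩
  exact ts_encS y hy

/-- a text without `ts` in a mode different from `1` -/
theorem seg_copy : ∀ (t : List Tok), ts ∉ t → ∀ (v : Me) (P : List Tok), v.mode ≠ 1 →
    ∃ v' : Me, v'.mode = v.mode ∧ v'.ng = v.ng ∧ Seg body2 t (mk2 v u (yy z I X P))
      (mk2 v' u (yy z I X (t.reverse ++ P))) (8 * t.length) := by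
  intro t
  induction t with
  | nil =>
    intro _ v P _
    exact ⟨v, rfl, rfl, Seg.nil _ _⟩
  | cons a t ih =>
    intro hn v P hm
    rw [List.mem_cons, not_or] at hn
    obtain ⟨v', h1, h2, h3⟩ := ih hn.2 (v.sr a) (a :: P) (by simpa using hm)
    refine ⟨v', by simpa using h1, by simpa using h2, ?_⟩
    have e := Seg.cons (v := v) (b_other (u := u) (z := z) (I := I) (X := X) (P := P) v a
      (fun h => hn.1 h.symm) hm) h3
    have e2 : (a :: t).reverse ++ P = t.reverse ++ a :: P := by simp
    rw [e2]
    exact e.mono (by simp only [List.length_cons]; omega)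

/-- the stacks before the present one -/
theorem seg_before (m : ℕ) : ∀ (A : List (List ℕ)) (v : Me) (P : List Tok), v.mode = 0 →
    ∃ v' : Me, v'.mode = 0 ∧ v'.ng = v.ng ∧
      Seg body2 (encC A) (mk2 v u (yy z (us (A.length + m)) X P))
      (mk2 v' u (yy z (us m) X ((encC A).reverse ++ P)))
      (8 * (encC A).length) := by
  intro A
  induction A with
  | nil =>
    intro v P hm
    refine ⟨v, hm, rfl, ?_⟩
    simpa [encC] using Seg.nil body2 _
  | cons a A ih =>
    intro v P hm
    have e1 : us ((a :: A).length + m) = t1 :: us (A.length + m) := by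
      simp only [us, List.length_cons]
      rw [show A.length + 1 + m = (A.length + m) + 1 by omega, List.replicate_succ]
    have e2 : encC (a :: A) = ts :: (encW a ++ encC A) := by
      simp [encC]
    have hb := b_ts (u := u) (z := z) (I := us (A.length + m)) (X := X) (P := P) v t1
    obtain ⟨v1, h1, h2, h3⟩ := seg_copy (u := u) (z := z) (I := us (A.length + m))
      (X := X) (encW a) (ts_encW a) ((v.sr ts).sg true) (ts :: P) (by simp [hm])
    have hv1 : v1.mode = 0 := by rw [h1]; simp [hm]
    obtain ⟨v2, h4, h5, h6⟩ := ih v1 ((encW a).reverse ++ ts :: P) hv1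
    refine ⟨v2, h4, by rw [h5, h2]; simp, ?_⟩
    have e := Seg.cons (v := v) hb (h3.append h6)
    rw [e1, e2]
    have e4 : (ts :: (encW a ++ encC A)).reverse ++ P =
        (encC A).reverse ++ ((encW a).reverse ++ ts :: P) := by
      simp
    rw [e4]
    exact e.mono (by simp only [List.length_cons, List.length_append]; omega)

/-- units in mode `1` -/
theorem seg_units : ∀ (i : ℕ) (v : Me) (k : ℕ), v.mode = 1 →
    ∃ v' : Me, v'.mode = 1 ∧ v'.ng = v.ng ∧
      Seg body2 (us i) (mk2 v u (yy z I (us k) P))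
      (mk2 v' u (yy z I (us (i + k)) P)) (8 * i) := by
  intro i
  induction i with
  | zero =>
    intro v k hm
    refine ⟨v, hm, rfl, ?_⟩
    simpa [us] using Seg.nil body2 _
  | succ i ih =>
    intro v k hm
    obtain ⟨v', h1, h2, h3⟩ := ih (v.sr t1) (k + 1) (by simpa using hm)
    refine ⟨v', h1, by simpa using h2, ?_⟩
    have hb := b_t1 (u := u) (z := z) (I := I) (X := us k) (P := P) v hm
    have e3 : t1 :: us k = us (k + 1) := by simp [us, List.replicate_succ]
    rw [e3] at hb
    have e := Seg.cons (v := v) hb h3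
    have e1 : us (i + 1) = t1 :: us i := by simp [us, List.replicate_succ]
    have e4 : us (i + 1 + k) = us (i + (k + 1)) := by congr 1; omega
    rw [e4, e1]
    exact e.mono (by omega)

/-- the present stack -/
theorem seg_stack (s : List ℕ) (v : Me) (P : List Tok) (hm : v.mode = 0) :
    ∃ v' : Me, v'.mode ≠ 0 ∧ v'.ng = v.ng ∧
      Seg body2 (ts :: encW s) (mk2 v u (yy z [] [] P))
      (mk2 v' u (yy z [] (us (entIx s)) ((ts :: tk :: encW s.tail).reverse ++ P)))
      (8 * (ts :: encW s).length) := by
  have hb := b_ts0 (u := u) (z := z) (X := []) (P := P) v hm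
  rcases s with _ | ⟨a, s⟩
  · refine ⟨((v.sr ts).sg false).sm 1, by simp, by simp, ?_⟩
    have e := Seg.cons (v := v) hb (Seg.nil body2 _)
    have e1 : (ts :: encW ([] : List ℕ)) = [ts] := by simp [encW]
    rw [e1]
    have e2 : (ts :: tk :: encW (([] : List ℕ).tail)).reverse ++ P = tk :: ts :: P := by
      simp [encW]
    have e3 : us (entIx []) = [] := rfl
    rw [e2, e3]
    exact e.mono (by simp)
  · obtain ⟨v1, h1, h2, h3⟩ := seg_units (u := u) (z := z) (I := []) (P := tk :: ts :: P) (a + 1)
      (((v.sr ts).sg false).sm 1) 0 (by simp)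
    have e0 : us 0 = [] := rfl
    rw [e0, add_zero] at h3
    have hb2 := b_tc (u := u) (z := z) (I := []) (X := us (a + 1)) (P := tk :: ts :: P) v1 h1
    obtain ⟨v2, h4, h5, h6⟩ := seg_copy (u := u) (z := z) (I := []) (X := us (a + 1)) (encW s)
      (ts_encW s) ((v1.sr tc).sm 2) (tk :: ts :: P) (by simp)
    refine ⟨v2, by rw [h4]; simp, by rw [h5]; simpa using h2, ?_⟩
    have e := Seg.cons (v := v) hb (h3.append (Seg.cons hb2 h6))
    have e1 : (ts :: encW (a :: s)) = ts :: (us (a + 1) ++ tc :: encW s) := by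
      simp [encW, encS, us]
    rw [e1]
    have e2 : (ts :: tk :: encW ((a :: s).tail)).reverse ++ P =
        (encW s).reverse ++ tk :: ts :: P := by
      simp
    have e3 : us (entIx (a :: s)) = us (a + 1) := rfl
    rw [e2, e3]
    exact e.mono (by simp only [List.length_cons, List.length_append, List.length_replicate]; omega)

/-- the stacks after the present one -/
theorem seg_after : ∀ (A : List (List ℕ)) (v : Me) (P : List Tok), v.mode ≠ 0 →
    ∃ v' : Me, v'.ng = v.ng ∧
      Seg body2 (encC A) (mk2 v u (yy z [] X P))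
      (mk2 v' u (yy z [] X ((encC A).reverse ++ P))) (8 * (encC A).length) := by
  intro A
  induction A with
  | nil =>
    intro v P _
    refine ⟨v, rfl, ?_⟩
    simpa [encC] using Seg.nil body2 _
  | cons a A ih =>
    intro v P hm
    have hb := b_ts1 (u := u) (z := z) (X := X) (P := P) v hm
    obtain ⟨v1, h1, h2, h3⟩ := seg_copy (u := u) (z := z) (I := [])
      (X := X) (encW a) (ts_encW a) (((v.sr ts).sg false).sm 2) (ts :: P) (by simp)
    obtain ⟨v2, h5, h6⟩ := ih v1 ((encW a).reverse ++ ts :: P)
      (by rw [h1]; simp)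
    refine ⟨v2, by rw [h5, h2]; simp, ?_⟩
    have e := Seg.cons (v := v) hb (h3.append h6)
    have e2 : encC (a :: A) = ts :: (encW a ++ encC A) := by
      simp [encC]
    rw [e2]
    have e4 : (ts :: (encW a ++ encC A)).reverse ++ P =
        (encC A).reverse ++ ((encW a).reverse ++ ts :: P) := by
      simp
    rw [e4]
    exact e.mono (by simp only [List.length_cons, List.length_append]; omega)

theorem split {α : Type} (B : List α) (q : ℕ) (a : α) (h : B[q]? = some a) :
    B = B.take q ++ a :: B.drop (q + 1) ∧ (B.take q).length = q := by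
  obtain ⟨hq, rfl⟩ := List.getElem?_eq_some_iff.1 h
  refine ⟨?_, by rw [List.length_take]; omega⟩
  rw [← List.drop_eq_getElem_cons hq, List.take_append_drop]

theorem length_encW (s : List ℕ) : (encW s.tail).length ≤ (encW s).length := by
  rcases s with _ | ⟨a, s⟩
  · simp [encW]
  · simp [encW]

theorem pf_P2 : T_P2 := by
  intro v u z L i s hL hcfg hcfg' hi hx
  obtain ⟨hs, hl⟩ := split L i s hL
  have hC0 : encC L = encC (L.take i) ++ ((ts :: encW s) ++ encC (L.drop (i + 1))) := by
    conv_lhs => rw [hs]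
    simp [encC]
  have hmk : mkd L i s.tail = encC (L.take i) ++ ((ts :: tk :: encW s.tail) ++
      encC (L.drop (i + 1))) := by
    simp [mkd]
  set A := L.take i with hA
  set C := L.drop (i + 1) with hC
  set z₀ := update z .cfg [] with hz0
  have hz : z₀ = yy z₀ (us (A.length + 0)) [] [] := by
    have h := yy_self z₀
    rw [hz0, update_of_ne (by decide), update_of_ne (by decide), update_of_ne (by decide),
      hi, hx, hcfg'] at h
    rw [hz0, hl, add_zero]
    exact h.symm
  obtain ⟨v1, h1, h2, h3⟩ := seg_before (u := u) (z := z₀) (X := []) 0 A (v.sm 0) [] (by simp)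
  obtain ⟨v2, h4, h5, h6⟩ := seg_stack (u := u) (z := z₀) s v1 ((encC A).reverse ++ []) h1
  obtain ⟨v3, h7, h8⟩ := seg_after (u := u) (z := z₀) (X := us (entIx s)) C v2
    ((ts :: tk :: encW s.tail).reverse ++ ((encC A).reverse ++ [])) h4
  have h9 := h3.append (h6.append h8)
  rw [← hC0, ← hz] at h9
  have h10 := sp_lp (v := v.sm 0) (z := z) hcfg h9
  obtain ⟨t1', h11⟩ := sp_mv v3 u (yy z₀ [] (us (entIx s))
    ((encC C).reverse ++ ((ts :: tk :: encW s.tail).reverse ++ ((encC A).reverse ++ []))))
    (y := .cfg') (y' := .cfg) (by decide)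
  have h13 := Spec.seq (sp_smode v u z 0) (Spec.seq h10 h11)
  refine ⟨v3.sr t1', ?_, ?_⟩
  · show (v3.sr t1').ng = v.ng
    simp [h7, h5, h2]
  have hfin : ∀ z1 z2 : Nw → List Tok, z1 = z2 → ∀ T1 T2 : ℕ, T1 ≤ T2 →
      Spec pass2 (mk2 v u z) (mk2 (v3.sr t1') u z1) T1 →
      Spec pass2 (mk2 v u z) (mk2 (v3.sr t1') u z2) T2 := by
    intro z1 z2 h T1 T2 hT hs
    subst h
    exact hs.mono hT
  refine hfin _ _ ?_ _ _ ?_ h13
  · funext k
    cases k <;> simp [update, yy, z₀, hcfg', hmk]
  · have hPl : (encC L).length = (encC A).length + ((ts :: encW s).length + (encC C).length) := by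
      rw [hC0]; simp only [List.length_append]
    have hw := length_encW s
    simp only [List.length_cons] at hPl
    simp [yy]
    omega

end Pool.Agent.H65.KT.P2
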